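import Pool.Agent.Helper16.HR.Top

/-! The HOD dichotomy from Martin's Maximum (the definitions of the statement are in
`Pool/Agent/Helper16/HR/Defs.lean`, `Pool/Agent/Helper73/HODC/Defs.lean`,
`Pool/Agent/Helper73/HM/Defs.lean`, `Pool/Agent/Helper73/HU/Defs.lean`,
`Pool/Agent/Helper73/HV/Defs.lean` and `Pool/Agent/Helper36/HS/Defs2.lean`). -/

namespace Pool.Agent.Helper16.HR.Old.MartinsMaximum

open Pool.Agent.Helper73.HODC Pool.Agent.Helper73.HM Pool.Agent.Helper73.HU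
open Pool.Agent.Helper16.HR
open Ordinal Cardinal Order

/-- Suppose `MMRefl`, the reflection principle which Foreman, Magidor and Shelah derived from
Martin's Maximum. Then the following are equivalent: the HOD Hypothesis; every set of at most `ℵ₁`
ordinals belongs to HOD; `cf τ = |τ|` for every regular cardinal `τ ≥ ω₂` of HOD; every singular
cardinal `σ` is singular in HOD and `(σ⁺)^HOD = σ⁺`; `(σ⁺)^HOD = σ⁺` for arbitrarily large `σ`; for
every regular `c > ℵ₂` and every nonzero `ν < c` HOD contains a partition of `{a < c : cf a = ω}`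
into `ν` stationary sets; arbitrarily large regular cardinals are not measurable in HOD;
arbitrarily large regular cardinals are not `Large`.

If `X` is a set of at most `ℵ₁` ordinals below an infinite cardinal `lam` and `X` does not belong
to HOD, then every regular `c > 2 ^ lam` is `Large`; for `lam = ℵ₁` this holds for every regular
`c ≥ ℵ₃` and for `lam = ℵ₀` it holds for every regular `c ≥ ℵ₂`. -/
theorem result (hR : MMRefl) :
    List.TFAE [
      HODHypothesis,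
      ∀ X : Set Ordinal.{0}, Cardinal.mk X ≤ Cardinal.lift.{1} (ℵ_ 1 : Cardinal.{0}) → InHOD X,
      ∀ τ, HODReg τ → (ℵ_ 2 : Cardinal.{0}).ord ≤ τ → τ.cof = τ.card,
      ∀ σ : Cardinal.{0}, σ.IsSingular → HODSing σ.ord ∧ SuccCorrect σ,
      ∀ θ : Cardinal.{0}, ∃ σ : Cardinal.{0}, θ < σ ∧ SuccCorrect σ,
      ∀ c : Cardinal.{0}, c.IsRegular → ℵ_ 2 < c → ∀ ν : Ordinal.{0}, 0 < ν → ν < c.ord →
        HODSplits ν c.ord,
      ∀ θ : Cardinal.{0}, ∃ c : Cardinal.{0}, θ < c ∧ c.IsRegular ∧ ∀ U, ¬ HODNormal c.ord U,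
      ∀ θ : Cardinal.{0}, ∃ c : Cardinal.{0}, θ < c ∧ c.IsRegular ∧ ¬ Large c] ∧
    ∀ (lam : Cardinal.{0}) (X : Set Ordinal.{0}), ℵ₀ ≤ lam →
      Cardinal.mk X ≤ Cardinal.lift.{1} (ℵ_ 1 : Cardinal.{0}) → (∀ a ∈ X, a < lam.ord) →
      ¬ InHOD X → ∀ c : Cardinal.{0}, c.IsRegular →
      ((2 : Cardinal.{0}) ^ lam < c ∨ (lam = ℵ_ 1 ∧ ℵ_ 3 ≤ c) ∨ (lam = ℵ₀ ∧ ℵ_ 2 ≤ c)) →
      Large c :=
  ⟨mm_tfae hR, fun lam X h0 hX hXl hn c hc h => mm_bounds hR lam X h0 hX hXl hn c hc h⟩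

end Pool.Agent.Helper16.HR.Old.MartinsMaximum
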